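import Pool.Agent.Q179.NF.Core

/-!
# Null-finite, Haar-null and Haar-meager sets in abelian groups; the group `∏ ℤ/(n+2)`
-/

open Set Filter Topology MeasureTheory

namespace Pool.Agent.Q179.NF

universe u

/-- A subset `B` of an (additive) topological group is null-finite if for some null-sequence
`y k → 0` every set `{k | x + y k ∈ B}` is finite. -/
def NullFinite {X : Type u} [AddCommGroup X] [TopologicalSpace X] (B : Set X) : Prop :=
  ∃ y : ℕ → X, Tendsto y atTop (𝓝 0) ∧ ∀ x : X, {k | x + y k ∈ B}.Finite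

/-- A (Borel) set `B` is Haar-null if some Borel probability measure vanishes on all its
translates `B + x`. -/
def HaarNull {X : Type u} [AddCommGroup X] [MeasurableSpace X] (B : Set X) : Prop :=
  ∃ μ : Measure X, IsProbabilityMeasure μ ∧ ∀ x : X, μ ((fun b => b + x) '' B) = 0

/-- A (Borel) set `B` is Haar-meager if there is a continuous map `f : K → X` from a nonempty
compact metric space such that `f⁻¹(B + x)` is meager in `K` for all `x`. -/
def HaarMeager {X : Type u} [AddCommGroup X] [TopologicalSpace X] (B : Set X) : Prop :=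
  ∃ (K : Type) (_ : MetricSpace K) (_ : CompactSpace K) (_ : Nonempty K) (f : K → X),
    Continuous f ∧ ∀ x : X, IsMeagre (f ⁻¹' ((fun b => b + x) '' B))

/-- The group `∏_{n ≥ 2} ℤ/n`. -/
abbrev XZ : Type := ∀ n : ℕ, ZMod (n + 2)

/-- The set of all points with no coordinate zero. -/
def AZ : Set XZ := {x | ∀ n, x n ≠ 0}

theorem not_covered (B : ℕ → Set XZ) (hB : ∀ j, @MeasurableSet _ (borel XZ) (B j))
    (hNF : ∀ j, NullFinite (B j)) : ¬ AZ ⊆ ⋃ j, B j := by
  classical
  intro hcov
  have hcard : ∀ n : ℕ, Fintype.card (ZMod (n + 2)) = n + 2 := fun n => ZMod.card _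
  choose y hy hfin using hNF
  obtain ⟨j, x, hx⟩ := core (G := fun n : ℕ => ZMod (n + 2)) (fun n => by rw [hcard]; omega)
    (F0 := fun _ => {0})
    (by
      intro m
      refine ⟨m, fun n hn => ?_⟩
      rw [Finset.card_singleton, mul_one, hcard]
      omega)
    (a0 := fun _ => 1) (fun n => by
      rw [Finset.mem_singleton]
      have : Fact (1 < n + 2) := ⟨by omega⟩
      exact one_ne_zero) B hB
    (by
      intro x hx
      exact hcov fun n => by simpa using hx n)
    (fun j k n => Equiv.addRight (y j k n))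
    (by
      intro j n
      have h1 : Tendsto (fun k => y j k n) atTop (𝓝 0) := by
        have := (continuous_apply n).tendsto (0 : XZ)
        exact this.comp (hy j)
      rw [nhds_discrete, tendsto_pure] at h1
      obtain ⟨k0, hk0⟩ := h1.exists_forall_of_atTop
      refine ⟨k0, fun k hk => ?_⟩
      ext z
      simp [hk0 k hk])
  exact hx (hfin j x)

theorem isClosed_AZ : IsClosed AZ := by
  have : AZ = ⋂ n, {x : XZ | x n ≠ 0} := by
    ext x
    simp [AZ]
  rw [this]
  refine isClosed_iInter fun n => ?_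
  have h : IsClosed ({0}ᶜ : Set (ZMod (n + 2))) := isClosed_discrete _
  exact IsClosed.preimage (f := fun x : XZ => x n) (continuous_apply n) h

theorem translate (x : XZ) : (fun b => b + x) '' AZ = {y | ∀ n, y n ≠ x n} := by
  ext y
  constructor
  · rintro ⟨b, hb, rfl⟩ n h
    apply hb n
    have : b n + x n = x n := h
    simpa using this
  · intro hy
    refine ⟨y - x, fun n h => hy n ?_, ?_⟩
    · have : y n - x n = 0 := h
      exact sub_eq_zero.1 this
    · simp

theorem haarMeager_AZ : HaarMeager AZ := by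
  let _ : MetricSpace XZ := TopologicalSpace.metrizableSpaceMetric XZ
  refine ⟨XZ, inferInstance, inferInstance, inferInstance, id, continuous_id, fun x => ?_⟩
  rw [preimage_id]
  have hcl : IsClosed ((fun b => b + x) '' AZ) :=
    (Homeomorph.addRight x).isClosedMap _ isClosed_AZ
  refine IsNowhereDense.isMeagre ?_
  rw [hcl.isNowhereDense_iff]
  rw [interior_eq_empty_iff_dense_compl, dense_iff_inter_open]
  rintro U hU ⟨z, hz⟩
  rw [isOpen_pi_iff] at hU
  obtain ⟨I, u, hu, huU⟩ := hU z hz
  obtain ⟨n, hn⟩ := Infinite.exists_notMem_finset I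
  classical
  refine ⟨fun m => if m = n then x m else z m, huU ?_, ?_⟩
  · intro m hm
    have hmn : m ≠ n := by
      rintro rfl
      exact hn hm
    simp only [hmn, if_false]
    exact (hu m hm).2
  · rw [translate]
    intro h
    apply h n
    simp

/-- uniform measures -/
noncomputable def um (n : ℕ) : Measure (ZMod (n + 2)) :=
  (PMF.uniformOfFintype (ZMod (n + 2))).toMeasure

instance (n : ℕ) : IsProbabilityMeasure (um n) := by
  unfold um
  infer_instance

theorem um_compl (n : ℕ) (a : ZMod (n + 2)) :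
    um n ({a}ᶜ) = ((n + 1 : ℕ) : ENNReal) / ((n + 2 : ℕ) : ENNReal) := by
  classical
  unfold um
  rw [PMF.toMeasure_uniformOfFintype_apply _ (MeasurableSet.of_discrete)]
  rw [ZMod.card]
  congr 2
  rw [Fintype.card_compl_set]
  simp [ZMod.card]

theorem prod_eq (N : ℕ) : ∏ n ∈ Finset.range N,
    (((n + 1 : ℕ) : ENNReal) / ((n + 2 : ℕ) : ENNReal)) = 1 / ((N + 1 : ℕ) : ENNReal) := by
  induction N with
  | zero => simp
  | succ N ih =>
    rw [Finset.prod_range_succ, ih]
    have h1 : ((N + 1 : ℕ) : ENNReal) ≠ 0 := by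
      exact_mod_cast Nat.succ_ne_zero N
    have h2 : ((N + 1 : ℕ) : ENNReal) ≠ ⊤ := ENNReal.natCast_ne_top _
    rw [one_div, div_eq_mul_inv, ← mul_assoc, ENNReal.inv_mul_cancel h1 h2, one_mul, one_div]

theorem haarNull_AZ : HaarNull AZ := by
  refine ⟨Measure.infinitePi um, inferInstance, fun x => ?_⟩
  rw [translate]
  have hle : ∀ N : ℕ, Measure.infinitePi um {y : XZ | ∀ n, y n ≠ x n} ≤
      1 / ((N + 1 : ℕ) : ENNReal) := by
    intro N
    have h1 : {y : XZ | ∀ n, y n ≠ x n} ⊆ Set.pi (Finset.range N) (fun n => ({x n}ᶜ : Set _)) :=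
      fun y hy n _ => hy n
    refine (measure_mono h1).trans ?_
    rw [Measure.infinitePi_pi (μ := um) (fun i _ => MeasurableSet.of_discrete)]
    rw [Finset.prod_congr rfl (fun n _ => um_compl n (x n)), prod_eq]
  have hlim : Tendsto (fun N : ℕ => 1 / ((N + 1 : ℕ) : ENNReal)) atTop (𝓝 0) := by
    have h1 := ENNReal.tendsto_inv_nat_nhds_zero
    have h2 := h1.comp (tendsto_add_atTop_nat 1)
    refine h2.congr fun N => ?_
    simp [Function.comp]
  exact le_antisymm (ge_of_tendsto' hlim hle) bot_le

end Pool.Agent.Q179.NF
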