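import Mathlib

/-!
# The slalom topology on a product of finite sets, and the core category argument
-/

open Set Filter Topology

namespace Pool.Agent.Q179.NF

universe u

variable {G : ℕ → Type u} [∀ n, Fintype (G n)]

/-- `|F n| = o(|G n|)` -/
def Small (F : ∀ n, Finset (G n)) : Prop :=
  ∀ m : ℕ, ∃ N : ℕ, ∀ n ≥ N, m * (F n).card ≤ Fintype.card (G n)

/-- basic sets -/
def D (N : ℕ) (s : ∀ n, G n) (F : ∀ n, Finset (G n)) : Set (∀ n, G n) :=
  {x | (∀ n < N, x n = s n) ∧ ∀ n ≥ N, x n ∉ F n}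

theorem small_union [∀ n, DecidableEq (G n)] {F F' : ∀ n, Finset (G n)} (hF : Small F)
    (hF' : Small F') : Small fun n => F n ∪ F' n := by
  intro m
  obtain ⟨N, hN⟩ := hF (2 * m)
  obtain ⟨N', hN'⟩ := hF' (2 * m)
  refine ⟨max N N', fun n hn => ?_⟩
  have h1 := hN n (le_of_max_le_left hn)
  have h2 := hN' n (le_of_max_le_right hn)
  have h3 := Finset.card_union_le (F n) (F' n)
  nlinarith [Nat.mul_le_mul_left m h3]

variable (G) in
/-- The product with the slalom topology. -/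
def XQ : Type u := ∀ n, G n

instance : TopologicalSpace (XQ G) where
  IsOpen U := ∀ x ∈ U, ∃ (N : ℕ) (F : ∀ n, Finset (G n)), Small F ∧ (∀ n ≥ N, x n ∉ F n) ∧
    D N x F ⊆ U
  isOpen_univ := fun x _ => ⟨0, fun _ => ∅, fun m => ⟨0, by simp⟩, by simp, subset_univ _⟩
  isOpen_inter := by
    classical
    intro U V hU hV x hx
    obtain ⟨N, F, hF, hxF, hD⟩ := hU x hx.1
    obtain ⟨N', F', hF', hxF', hD'⟩ := hV x hx.2
    refine ⟨max N N', fun n => F n ∪ F' n, small_union hF hF', ?_, ?_⟩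
    · intro n hn h
      rcases Finset.mem_union.1 h with h | h
      · exact hxF n (le_of_max_le_left hn) h
      · exact hxF' n (le_of_max_le_right hn) h
    · intro y hy
      refine ⟨hD ⟨fun n hn => hy.1 n (lt_max_of_lt_left hn), fun n hn => ?_⟩,
        hD' ⟨fun n hn => hy.1 n (lt_max_of_lt_right hn), fun n hn => ?_⟩⟩
      · rcases lt_or_ge n (max N N') with h | h
        · rw [hy.1 n h]
          exact hxF n hn
        · exact fun h' => hy.2 n h (Finset.mem_union_left _ h')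
      · rcases lt_or_ge n (max N N') with h | h
        · rw [hy.1 n h]
          exact hxF' n hn
        · exact fun h' => hy.2 n h (Finset.mem_union_right _ h')
  isOpen_sUnion := by
    rintro A hA x ⟨U, hU, hx⟩
    obtain ⟨N, F, hF, hxF, hD⟩ := hA U hU x hx
    exact ⟨N, F, hF, hxF, hD.trans (subset_sUnion_of_mem hU)⟩

/-- forget the slalom topology -/
def ofQ (x : XQ G) : ∀ n, G n := x

/-- regard a point as a point of `XQ G` -/
def toQ (x : ∀ n, G n) : XQ G := x

/-- basic sets as sets in `XQ G` -/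
def DQ (N : ℕ) (s : ∀ n, G n) (F : ∀ n, Finset (G n)) : Set (XQ G) := D N s F

/-- coordinatewise permutation -/
def permQ (σ : ∀ n, Equiv.Perm (G n)) (x : XQ G) : XQ G := fun n => σ n (x n)

theorem isOpen_XQ {U : Set (XQ G)} : IsOpen U ↔ ∀ x ∈ U, ∃ (N : ℕ) (F : ∀ n, Finset (G n)),
    Small F ∧ (∀ n ≥ N, x n ∉ F n) ∧ D N x F ⊆ U := Iff.rfl

theorem isOpen_D {N : ℕ} (s : ∀ n, G n) {F : ∀ n, Finset (G n)} (hF : Small F) :
    IsOpen (DQ N s F) := by
  rw [isOpen_XQ]
  intro x hx
  refine ⟨N, F, hF, hx.2, fun y hy => ⟨fun n hn => ?_, hy.2⟩⟩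
  rw [hy.1 n hn, hx.1 n hn]

section usual

variable [∀ n, TopologicalSpace (G n)] [∀ n, DiscreteTopology (G n)]

omit [∀ n, Fintype (G n)] in
theorem isClosed_D (N : ℕ) (s : ∀ n, G n) (F : ∀ n, Finset (G n)) : IsClosed (D N s F) := by
  have : D N s F = (⋂ n, ⋂ (_ : n < N), {x : ∀ n, G n | x n = s n}) ∩
      ⋂ n, ⋂ (_ : n ≥ N), {x : ∀ n, G n | x n ∉ F n} := by
    ext x
    simp [D]
  rw [this]
  refine IsClosed.inter ?_ ?_
  · refine isClosed_iInter fun n => isClosed_iInter fun _ => ?_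
    exact (isClosed_discrete {s n}).preimage (continuous_apply n)
  · refine isClosed_iInter fun n => isClosed_iInter fun _ => ?_
    exact (isClosed_discrete ((F n : Set (G n))ᶜ)).preimage (continuous_apply n)

omit [∀ n, DiscreteTopology (G n)] in
theorem continuous_id' : Continuous (ofQ : XQ G → ∀ n, G n) := by
  refine continuous_pi fun n => ?_
  refine continuous_def.2 fun s _ => ?_
  rw [isOpen_XQ]
  intro x hx
  refine ⟨n + 1, fun _ => ∅, fun m => ⟨0, by simp⟩, by simp, fun y hy => ?_⟩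
  change y n ∈ s
  rw [hy.1 n (Nat.lt_succ_self n)]
  exact hx

end usual

/-- The slalom topology is Baire. -/
theorem baire_XQ : BaireSpace (XQ G) := by
  classical
  let _ : ∀ n, TopologicalSpace (G n) := fun _ => ⊥
  have : ∀ n, DiscreteTopology (G n) := fun _ => ⟨rfl⟩
  refine ⟨fun f hfo hfd => ?_⟩
  rw [dense_iff_inter_open]
  rintro U hU ⟨x0, hx0⟩
  obtain ⟨N0, F0, hF0, hxF0, hD0⟩ := isOpen_XQ.1 hU x0 hx0
  let P : Type u := {p : ℕ × (∀ n, G n) × (∀ n, Finset (G n)) //
    Small p.2.2 ∧ ∀ n ≥ p.1, p.2.1 n ∉ p.2.2 n}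
  let DD : P → Set (∀ n, G n) := fun p => D p.1.1 p.1.2.1 p.1.2.2
  have hself : ∀ p : P, p.1.2.1 ∈ DD p := fun p => ⟨fun _ _ => rfl, p.2.2⟩
  have hstep : ∀ (i : ℕ) (p : P), ∃ q : P, DD q ⊆ DD p ∧ DD q ⊆ f i := by
    intro i p
    obtain ⟨x, hxD, hxf⟩ := (dense_iff_inter_open.1 (hfd i)) (DQ p.1.1 p.1.2.1 p.1.2.2)
      (isOpen_D _ p.2.1) ⟨_, hself p⟩
    obtain ⟨N, F, hF, hxF, hsub⟩ := isOpen_XQ.1
      ((isOpen_D p.1.2.1 p.2.1 (N := p.1.1)).inter (hfo i)) x ⟨hxD, hxf⟩
    exact ⟨⟨(N, x, F), hF, hxF⟩, hsub.trans inter_subset_left, hsub.trans inter_subset_right⟩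
  choose g hg1 hg2 using hstep
  let q : ℕ → P := fun i => Nat.rec ⟨(N0, x0, F0), hF0, hxF0⟩ (fun i p => g i p) i
  have hne : (⋂ i, DD (q i)).Nonempty := by
    refine IsCompact.nonempty_iInter_of_sequence_nonempty_isCompact_isClosed
      (fun i => DD (q i)) (fun i => hg1 i (q i)) (fun i => ⟨_, hself (q i)⟩) ?_ ?_
    · exact (isClosed_D _ _ _).isCompact
    · exact fun i => isClosed_D _ _ _
  obtain ⟨x, hx⟩ := hne
  rw [mem_iInter] at hx
  refine ⟨x, hD0 (hx 0), mem_iInter.2 fun i => ?_⟩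
  exact hg2 i (q i) (hx (i + 1))

/-- coordinatewise permutations are homeomorphisms for the slalom topology -/
theorem perm_homeo (σ : ∀ n, Equiv.Perm (G n)) :
    Continuous (permQ σ) ∧ IsOpenMap (permQ σ) := by
  classical
  have key : ∀ σ : ∀ n, Equiv.Perm (G n), Continuous (permQ σ) := by
    intro σ
    refine continuous_def.2 fun U hU => ?_
    rw [isOpen_XQ]
    intro x hx
    obtain ⟨N, F, hF, hxF, hD⟩ := isOpen_XQ.1 hU _ hx
    refine ⟨N, fun n => (F n).map (σ n).symm.toEmbedding, ?_, ?_, ?_⟩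
    · intro m
      obtain ⟨N', hN'⟩ := hF m
      exact ⟨N', fun n hn => by rw [Finset.card_map]; exact hN' n hn⟩
    · intro n hn h
      rw [Finset.mem_map] at h
      obtain ⟨a, ha, hax⟩ := h
      have h' : ¬ (σ n (x n) ∈ F n) := hxF n hn
      apply h'
      have : σ n (x n) = a := by
        rw [← hax]
        simp
      rw [this]
      exact ha
    · intro y hy
      apply hD
      refine ⟨fun n hn => ?_, fun n hn h => ?_⟩
      · change σ n (y n) = σ n (x n)
        rw [hy.1 n hn]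
      · apply hy.2 n hn
        rw [Finset.mem_map]
        exact ⟨σ n (y n), h, by simp⟩
  refine ⟨key σ, ?_⟩
  intro U hU
  have h1 : permQ σ '' U = permQ (fun n => (σ n).symm) ⁻¹' U := by
    ext x
    constructor
    · rintro ⟨y, hy, rfl⟩
      have : permQ (fun n => (σ n).symm) (permQ σ y) = y := by
        funext n
        exact (σ n).symm_apply_apply (y n)
      rw [mem_preimage, this]
      exact hy
    · intro hx
      refine ⟨_, hx, ?_⟩
      funext n
      exact (σ n).apply_symm_apply (x n)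
  rw [h1]
  exact hU.preimage (key fun n => (σ n).symm)

/-- The combinatorial thinning. -/
theorem thin [∀ n, DecidableEq (G n)] (hcard : ∀ n, 0 < Fintype.card (G n))
    {F : ∀ n, Finset (G n)} (hF : Small F) {N : ℕ} {x0 : ∀ n, G n} (hx0 : ∀ n ≥ N, x0 n ∉ F n)
    (σ : ℕ → ∀ n, Equiv.Perm (G n)) (hσ : ∀ n, ∃ k0, ∀ k ≥ k0, σ k n = 1) :
    ∃ (κ : ℕ → ℕ) (F' : ∀ n, Finset (G n)) (x1 : ∀ n, G n), StrictMono κ ∧ Small F' ∧
      x1 ∈ D N x0 F' ∧ ∀ x ∈ D N x0 F', ∀ i, (fun n => σ (κ i) n (x n)) ∈ D N x0 F := by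
  classical
  -- thresholds
  have ha : ∀ i : ℕ, ∃ a : ℕ, ∀ n ≥ a, (i + 2) ^ 2 * (F n).card ≤ Fintype.card (G n) :=
    fun i => hF _
  choose a ha using ha
  let M : ℕ → ℕ := fun i => N + i + ∑ j ∈ Finset.range (i + 1), a j
  have hMmono : StrictMono M := by
    refine strictMono_nat_of_lt_succ fun i => ?_
    simp only [M]
    rw [Finset.sum_range_succ _ (i + 1)]
    omega
  have hMN : ∀ i, N ≤ M i := fun i => by simp only [M]; omega
  have hMi : ∀ i, i ≤ M i := fun i => by simp only [M]; omega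
  have hMa : ∀ i, a i ≤ M i := fun i => by
    have : a i ≤ ∑ j ∈ Finset.range (i + 1), a j :=
      Finset.single_le_sum (f := a) (fun _ _ => Nat.zero_le _) (Finset.self_mem_range_succ i)
    simp only [M]
    omega
  have hc : ∀ b : ℕ, ∃ k0, ∀ k ≥ k0, ∀ n < b, σ k n = 1 := by
    intro b
    choose k1 hk1 using hσ
    refine ⟨∑ n ∈ Finset.range b, k1 n, fun k hk n hn => hk1 n k ?_⟩
    exact (Finset.single_le_sum (f := k1) (fun _ _ => Nat.zero_le _)
      (Finset.mem_range.2 hn)).trans hk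
  choose c hc using hc
  let κ : ℕ → ℕ := fun i => i + ∑ j ∈ Finset.range (i + 1), c (M j)
  have hκmono : StrictMono κ := by
    refine strictMono_nat_of_lt_succ fun i => ?_
    simp only [κ]
    rw [Finset.sum_range_succ _ (i + 1)]
    omega
  have hκ : ∀ i, ∀ n < M i, σ (κ i) n = 1 := by
    intro i
    refine hc (M i) (κ i) ?_
    have : c (M i) ≤ ∑ j ∈ Finset.range (i + 1), c (M j) :=
      Finset.single_le_sum (f := fun j => c (M j)) (fun _ _ => Nat.zero_le _)
        (Finset.self_mem_range_succ i)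
    simp only [κ]
    omega
  let q : ℕ → ℕ := fun n => Nat.findGreatest (fun i => M i ≤ n) n
  let F' : ∀ n, Finset (G n) := fun n =>
    if M 0 ≤ n then F n ∪ (Finset.range (q n + 1)).biUnion
      (fun i => (F n).map (σ (κ i) n).symm.toEmbedding) else F n
  have hq : ∀ n, M 0 ≤ n → M (q n) ≤ n := fun n hn =>
    Nat.findGreatest_spec (P := fun i => M i ≤ n) (Nat.zero_le n) hn
  have hF'card : ∀ n, M 0 ≤ n → (F' n).card ≤ (q n + 2) * (F n).card := by
    intro n hn
    simp only [F', hn, if_true]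
    refine (Finset.card_union_le _ _).trans ?_
    have h1 : ((Finset.range (q n + 1)).biUnion
        (fun i => (F n).map (σ (κ i) n).symm.toEmbedding)).card ≤
        (q n + 1) * (F n).card := by
      refine (Finset.card_biUnion_le_card_mul _ _ (F n).card ?_).trans ?_
      · intro i _
        rw [Finset.card_map]
      · rw [Finset.card_range]
    calc (F n).card + _ ≤ (F n).card + (q n + 1) * (F n).card := Nat.add_le_add_left h1 _
      _ = (q n + 2) * (F n).card := by ring
  have hF'bound : ∀ n, M 0 ≤ n → (q n + 2) * (F' n).card ≤ Fintype.card (G n) := by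
    intro n hn
    have h1 := hF'card n hn
    have h2 := ha (q n) n ((hMa _).trans (hq n hn))
    calc (q n + 2) * (F' n).card ≤ (q n + 2) * ((q n + 2) * (F n).card) :=
          Nat.mul_le_mul_left _ h1
      _ = (q n + 2) ^ 2 * (F n).card := by ring
      _ ≤ _ := h2
  have hF'small : Small F' := by
    intro m
    refine ⟨M m, fun n hn => ?_⟩
    have h0 : M 0 ≤ n := (hMmono.monotone (Nat.zero_le m)).trans hn
    have h1 : m ≤ q n := Nat.le_findGreatest ((hMi m).trans hn) hn
    refine le_trans ?_ (hF'bound n h0)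
    exact Nat.mul_le_mul_right _ (by omega)
  have hx1 : ∀ n, ∃ z : G n, (n < M 0 → z = x0 n) ∧ (M 0 ≤ n → z ∉ F' n) := by
    intro n
    by_cases hn : M 0 ≤ n
    · have h1 := hF'bound n hn
      have h2 : (F' n).card < Fintype.card (G n) := by
        rcases Nat.eq_zero_or_pos (F' n).card with h3 | h3
        · rw [h3]
          exact hcard n
        · nlinarith
      obtain ⟨z, hz⟩ : ∃ z, z ∉ F' n := by
        by_contra hno
        push Not at hno
        have : F' n = Finset.univ := Finset.eq_univ_iff_forall.2 hno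
        rw [this, Finset.card_univ] at h2
        exact lt_irrefl _ h2
      exact ⟨z, fun h => absurd hn (not_le.2 h), fun _ => hz⟩
    · exact ⟨x0 n, fun _ => rfl, fun h => absurd h hn⟩
  choose x1 hx1 hx1' using hx1
  refine ⟨κ, F', x1, hκmono, hF'small, ⟨fun n hn => hx1 n (lt_of_lt_of_le hn (hMN 0)), ?_⟩, ?_⟩
  · intro n hn
    by_cases h0 : M 0 ≤ n
    · exact hx1' n h0
    · have h1 : F' n = F n := by simp only [F', h0, if_false]
      rw [h1, hx1 n (not_le.1 h0)]
      exact hx0 n hn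
  · intro x hx i
    refine ⟨fun n hn => ?_, fun n hn h => ?_⟩
    · change σ (κ i) n (x n) = x0 n
      rw [hκ i n (lt_of_lt_of_le hn (hMN i)), hx.1 n hn]
      rfl
    · by_cases h1 : M i ≤ n
      · have h0 : M 0 ≤ n := (hMmono.monotone (Nat.zero_le i)).trans h1
        apply hx.2 n hn
        simp only [F', h0, if_true]
        refine Finset.mem_union_right _ (Finset.mem_biUnion.2 ⟨i, ?_, ?_⟩)
        · rw [Finset.mem_range]
          have : i ≤ q n := Nat.le_findGreatest ((hMi i).trans h1) h1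
          omega
        · rw [Finset.mem_map]
          exact ⟨_, h, by simp⟩
      · have h2 : σ (κ i) n = 1 := hκ i n (not_le.1 h1)
        have h : σ (κ i) n (x n) ∈ F n := h
        rw [h2] at h
        apply hx.2 n hn
        by_cases h0 : M 0 ≤ n
        · simp only [F', h0, if_true]
          exact Finset.mem_union_left _ h
        · simp only [F', h0, if_false]
          exact h

/-- **Core theorem.** -/
theorem core [∀ n, TopologicalSpace (G n)] [∀ n, DiscreteTopology (G n)]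
    (hcard : ∀ n, 0 < Fintype.card (G n)) {F0 : ∀ n, Finset (G n)} (hF0 : Small F0)
    {a0 : ∀ n, G n} (ha0 : ∀ n, a0 n ∉ F0 n) (B : ℕ → Set (∀ n, G n))
    (hB : ∀ j, @MeasurableSet _ (borel (∀ n, G n)) (B j))
    (hcov : {x : ∀ n, G n | ∀ n, x n ∉ F0 n} ⊆ ⋃ j, B j)
    (σ : ℕ → ℕ → ∀ n, Equiv.Perm (G n)) (hσ : ∀ j n, ∃ k0, ∀ k ≥ k0, σ j k n = 1) :
    ∃ (j : ℕ) (x : ∀ n, G n), {k | (fun n => σ j k n (x n)) ∈ B j}.Infinite := by
  classical
  have hbaire : BaireSpace (XQ G) := baire_XQ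
  -- approximate by open sets of the slalom topology
  have happ : ∀ j, ∃ u : Set (XQ G), IsOpen u ∧ (ofQ ⁻¹' B j) =ᶠ[residual (XQ G)] u := by
    intro j
    have h1 : @MeasurableSet (XQ G) (borel (XQ G)) (ofQ ⁻¹' B j) :=
      (continuous_id' (G := G)).borel_measurable (hB j)
    let _ : MeasurableSpace (XQ G) := borel (XQ G)
    have : BorelSpace (XQ G) := ⟨rfl⟩
    exact MeasurableSet.residualEq_isOpen h1
  choose U hUo hU using happ
  set A : Set (XQ G) := DQ 0 a0 F0 with hA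
  have hAo : IsOpen A := isOpen_D a0 hF0
  have hAne : A.Nonempty := ⟨a0, fun _ _ => rfl, fun n _ => ha0 n⟩
  obtain ⟨j, x0, hx0⟩ : ∃ j, (U j).Nonempty := by
    by_contra hno
    push Not at hno
    have h1 : ∀ᶠ x in residual (XQ G), ∀ j, ofQ x ∉ B j := by
      rw [eventually_countable_forall]
      intro j
      have h2 := hU j
      rw [hno j] at h2
      filter_upwards [h2] with x hx hxB
      have h4 : (ofQ ⁻¹' B j) x = (∅ : Set (XQ G)) x := hx
      have h5 : (ofQ ⁻¹' B j) x := hxB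
      rw [h4] at h5
      exact h5
    have h2 : Dense {x : XQ G | ∀ j, ofQ x ∉ B j} := dense_of_mem_residual h1
    obtain ⟨x, hxA, hx⟩ := (dense_iff_inter_open.1 h2) A hAo hAne
    obtain ⟨j, hj⟩ := mem_iUnion.1 (hcov (fun n => hxA.2 n (Nat.zero_le n)))
    exact hx j hj
  obtain ⟨N, F, hF, hxF, hD⟩ := isOpen_XQ.1 (hUo j) x0 hx0
  obtain ⟨κ, F', x1, hκ, hF', hx1, hmap⟩ := thin hcard hF hxF (σ j) (hσ j)
  have h1 : ∀ᶠ x in residual (XQ G), x ∈ U j → ofQ x ∈ B j := by
    filter_upwards [hU j] with x hx hxU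
    have h4 : (ofQ ⁻¹' B j) x = (U j) x := hx
    have h5 : (U j) x := hxU
    rw [← h4] at h5
    exact h5
  have h2 : ∀ᶠ x in residual (XQ G), ∀ i, permQ (σ j (κ i)) x ∈ U j →
      ofQ (permQ (σ j (κ i)) x) ∈ B j := by
    rw [eventually_countable_forall]
    intro i
    exact (tendsto_residual_of_isOpenMap (perm_homeo (σ j (κ i))).1
      (perm_homeo (σ j (κ i))).2).eventually h1
  have h3 : Dense {x : XQ G | ∀ i, permQ (σ j (κ i)) x ∈ U j →
      ofQ (permQ (σ j (κ i)) x) ∈ B j} := dense_of_mem_residual h2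
  obtain ⟨x, hxD, hx⟩ := (dense_iff_inter_open.1 h3) (DQ N x0 F') (isOpen_D x0 hF') ⟨x1, hx1⟩
  refine ⟨j, x, ?_⟩
  have hsub : range κ ⊆ {k | (fun n => σ j k n (x n)) ∈ B j} := by
    rintro _ ⟨i, rfl⟩
    exact hx i (hD (hmap x hxD i))
  exact (Set.infinite_range_of_injective hκ.injective).mono hsub

end Pool.Agent.Q179.NF
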